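import Mathlib
import Pool.Agent.H140.LL.Bounds

set_option autoImplicit false
set_option linter.unusedSectionVars false

namespace Pool.Agent.Results.MP_8fd344_co.NotSpectral

open Filter Topology
open Pool.Agent.H140.LL

/-- A finite bipartite graph with labelled vertex classes `V₁ = Fin a`, `V₂ = Fin b`, and edge set
`{(x, y) | E x y} ⊆ V₁ × V₂`. -/
structure BG where
  a : ℕ
  b : ℕ
  E : Fin a → Fin b → Prop

/-- Number of edges. -/
noncomputable def BG.edges (G : BG) : ℕ := Nat.card {p : Fin G.a × Fin G.b // G.E p.1 p.2}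

/-- Number of homomorphisms `H → G` sending `V_i(H)` into `V_i(G)`. -/
noncomputable def hom (H G : BG) : ℕ :=
  Nat.card {p : (Fin H.a → Fin G.a) × (Fin H.b → Fin G.b) // ∀ x y, H.E x y → G.E (p.1 x) (p.2 y)}

/-- `t_B(H, G)` -/
noncomputable def tB (H G : BG) : ℝ := (hom H G : ℝ) / ((G.a : ℝ) ^ H.a * (G.b : ℝ) ^ H.b)

/-- The single edge. -/
def K2 : BG := ⟨1, 1, fun _ _ => True⟩

open Classical in
/-- `h(H, G)`; it is `|E(H)|` if `t_B(K₂, G) = 1`. -/
noncomputable def h (H G : BG) : ℝ :=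
  if tB K2 G = 1 then (H.edges : ℝ) else Real.log (tB H G) / Real.log (tB K2 G)

/-- `H'` is a collapse of `H`: there is a homomorphism `H → H'` (respecting the classes) which is
surjective on vertices and on edges. -/
def IsCollapse (H H' : BG) : Prop :=
  ∃ (f : Fin H.a → Fin H'.a) (g : Fin H.b → Fin H'.b),
    (∀ x y, H.E x y → H'.E (f x) (g y)) ∧ Function.Surjective f ∧ Function.Surjective g ∧
    ∀ x' y', H'.E x' y' → ∃ x y, H.E x y ∧ f x = x' ∧ g y = y'

/-- `r(H) = min (|E(H')| + 2 (|V(H)| - |V(H')|))` over the collapses `H'` of `H`. -/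
noncomputable def r (H : BG) : ℤ :=
  sInf {m : ℤ | ∃ H' : BG, IsCollapse H H' ∧
    m = (H'.edges : ℤ) + 2 * (((H.a : ℤ) + H.b) - ((H'.a : ℤ) + H'.b))}

/-- `G ∈ 𝓑₀`: `G` has at least one edge. -/
def BG.InB0 (G : BG) : Prop := ∃ x y, G.E x y

/-- The sequence `G` (in `𝓑₀`) has the quasirandom log-limit. -/
def HasQLL (G : ℕ → BG) : Prop :=
  ∀ H : BG, H.InB0 → Tendsto (fun n => h H (G n)) atTop (𝓝 ((r H : ℤ) : ℝ))

/-- The underlying simple graph on `V₁ ∪ V₂`. -/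
def BG.graph (G : BG) : SimpleGraph (Fin G.a ⊕ Fin G.b) where
  Adj u v := (∃ x y, G.E x y ∧ u = Sum.inl x ∧ v = Sum.inr y) ∨
    (∃ x y, G.E x y ∧ v = Sum.inl x ∧ u = Sum.inr y)
  symm := ⟨fun u v huv => huv.symm⟩
  loopless := ⟨by
    rintro u (⟨x, y, -, h1, h2⟩ | ⟨x, y, -, h1, h2⟩)
    · rw [h1] at h2; cases h2
    · rw [h1] at h2; cases h2⟩

open Classical in
/-- The spectrum: the multiset of eigenvalues of the adjacency matrix of the underlying graph. -/
noncomputable def BG.spectrum (G : BG) : Multiset ℝ := (G.graph.adjMatrix ℝ).charpoly.roots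

/-! ### Computation of `r` -/

theorem r_eq (H : BG) : r H = 2 * ((H.a : ℤ) + H.b) - opt H.E := by
  have key : ∀ (H' : BG) (f : Fin H.a → Fin H'.a) (g : Fin H.b → Fin H'.b),
      (∀ x y, H.E x y → H'.E (f x) (g y)) → Function.Surjective f → Function.Surjective g →
      (∀ x' y', H'.E x' y' → ∃ x y, H.E x y ∧ f x = x' ∧ g y = y') →
      val H.E f g = 2 * ((H'.a : ℤ) + H'.b) - (H'.edges : ℤ) := by
    intro H' f g h1 hf hg h2
    unfold val
    have e1 : (Set.range f).ncard = H'.a := by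
      rw [hf.range_eq, Set.ncard_univ, Nat.card_fin]
    have e2 : (Set.range g).ncard = H'.b := by
      rw [hg.range_eq, Set.ncard_univ, Nat.card_fin]
    have e3 : (imE H.E f g).ncard = H'.edges := by
      have : imE H.E f g = {p : Fin H'.a × Fin H'.b | H'.E p.1 p.2} := by
        ext q
        constructor
        · rintro ⟨x, y, hxy, hx, hy⟩
          have := h1 x y hxy
          rw [hx, hy] at this
          exact this
        · intro hq
          obtain ⟨x, y, hxy, hx, hy⟩ := h2 _ _ hq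
          exact ⟨x, y, hxy, hx, hy⟩
      rw [this]
      rfl
    rw [e1, e2, e3]
  obtain ⟨f, g, hfg⟩ := exists_opt H.E
  -- the optimal collapse
  have ef : Set.range f ≃ Fin (Set.range f).ncard :=
    (Finite.equivFinOfCardEq (Nat.card_coe_set_eq _))
  have eg : Set.range g ≃ Fin (Set.range g).ncard :=
    (Finite.equivFinOfCardEq (Nat.card_coe_set_eq _))
  let f' : Fin H.a → Fin (Set.range f).ncard := fun x => ef ⟨f x, x, rfl⟩
  let g' : Fin H.b → Fin (Set.range g).ncard := fun y => eg ⟨g y, y, rfl⟩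
  let H' : BG := ⟨(Set.range f).ncard, (Set.range g).ncard, fun x' y' =>
    ∃ x y, H.E x y ∧ f' x = x' ∧ g' y = y'⟩
  have hf' : Function.Surjective f' := by
    intro z
    obtain ⟨w, x, hx⟩ := ef.symm z
    rcases hz : ef.symm z with ⟨w, x, hx⟩
    refine ⟨x, ?_⟩
    apply ef.symm.injective
    rw [hz]
    simp only [f', Equiv.symm_apply_apply]
    exact Subtype.ext hx
  have hg' : Function.Surjective g' := by
    intro z
    rcases hz : eg.symm z with ⟨w, x, hx⟩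
    refine ⟨x, ?_⟩
    apply eg.symm.injective
    rw [hz]
    simp only [g', Equiv.symm_apply_apply]
    exact Subtype.ext hx
  have hcol1 : ∀ x y, H.E x y → H'.E (f' x) (g' y) := fun x y hxy => ⟨x, y, hxy, rfl, rfl⟩
  have hcol2 : ∀ x' y', H'.E x' y' → ∃ x y, H.E x y ∧ f' x = x' ∧ g' y = y' := fun _ _ h => h
  have hval : val H.E f' g' = val H.E f g := by
    have h1 := val_comp H.E f' g' (fun z => (ef.symm z).1) (fun z => (eg.symm z).1)
      (fun a _ b _ h => ef.symm.injective (Subtype.ext h))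
      (fun a _ b _ h => eg.symm.injective (Subtype.ext h))
    rw [← h1]
    congr 1
    · funext x
      simp [f']
    · funext x
      simp [g']
  have hk := key H' f' g' hcol1 hf' hg' hcol2
  have hmem : 2 * ((H.a : ℤ) + H.b) - opt H.E ∈ {m : ℤ | ∃ H' : BG, IsCollapse H H' ∧
      m = (H'.edges : ℤ) + 2 * (((H.a : ℤ) + H.b) - ((H'.a : ℤ) + H'.b))} := by
    refine ⟨H', ⟨f', g', hcol1, hf', hg', hcol2⟩, ?_⟩
    rw [hfg, ← hval, hk]
    ring
  have hlb : ∀ m ∈ {m : ℤ | ∃ H' : BG, IsCollapse H H' ∧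
      m = (H'.edges : ℤ) + 2 * (((H.a : ℤ) + H.b) - ((H'.a : ℤ) + H'.b))},
      2 * ((H.a : ℤ) + H.b) - opt H.E ≤ m := by
    rintro m ⟨H'', ⟨f'', g'', h1, h2, h3, h4⟩, rfl⟩
    have h5 := key H'' f'' g'' h1 h2 h3 h4
    have h6 := val_le_opt H.E f'' g''
    linarith
  exact le_antisymm (csInf_le ⟨_, hlb⟩ hmem) (le_csInf ⟨_, hmem⟩ hlb)

/-! ### Transport -/

/-- The `BG` of a relation between finite types. -/
noncomputable def toBG {γ δ : Type} [Fintype γ] [Fintype δ] (F : γ → δ → Prop) : BG :=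
  ⟨Fintype.card γ, Fintype.card δ,
    fun i j => F ((Fintype.equivFin γ).symm i) ((Fintype.equivFin δ).symm j)⟩

theorem hom_toBG {γ δ : Type} [Fintype γ] [Fintype δ] (H : BG) (F : γ → δ → Prop) :
    hom H (toBG F) = homCount H.E F := by
  symm
  exact homCount_congr H.E F (toBG F).E (Fintype.equivFin γ) (Fintype.equivFin δ)
    (fun x y => by
      show F x y ↔ F ((Fintype.equivFin γ).symm ((Fintype.equivFin γ) x))
        ((Fintype.equivFin δ).symm ((Fintype.equivFin δ) y))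
      rw [Equiv.symm_apply_apply, Equiv.symm_apply_apply])

theorem spectrum_eq (G : BG) : G.spectrum = (adjB G.E).charpoly.roots := by
  classical
  unfold BG.spectrum
  congr 2
  ext i j
  rw [SimpleGraph.adjMatrix_apply]
  rcases i with i | i <;> rcases j with j | j
  · rw [if_neg]
    · rfl
    · rintro (⟨x, y, -, h1, h2⟩ | ⟨x, y, -, h1, h2⟩)
      · cases h2
      · cases h2
  · show _ = bim G.E i j
    unfold bim
    congr 1
    apply propext
    constructor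
    · rintro (⟨x, y, h0, h1, h2⟩ | ⟨x, y, h0, h1, h2⟩)
      · cases h1; cases h2; exact h0
      · cases h1
    · intro hF
      exact Or.inl ⟨i, j, hF, rfl, rfl⟩
  · show _ = bim G.E j i
    unfold bim
    congr 1
    apply propext
    constructor
    · rintro (⟨x, y, h0, h1, h2⟩ | ⟨x, y, h0, h1, h2⟩)
      · cases h1
      · cases h1; cases h2; exact h0
    · intro hF
      exact Or.inr ⟨j, i, hF, rfl, rfl⟩
  · rw [if_neg]
    · rfl
    · rintro (⟨x, y, -, h1, h2⟩ | ⟨x, y, -, h1, h2⟩)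
      · cases h1
      · cases h1

theorem adjB_reindex {γ δ γ' δ' : Type} (F : γ → δ → Prop) (e1 : γ ≃ γ') (e2 : δ ≃ δ') :
    adjB (fun i j => F (e1.symm i) (e2.symm j)) =
      Matrix.reindex (Equiv.sumCongr e1 e2) (Equiv.sumCongr e1 e2) (adjB F) := by
  refine Matrix.ext fun i j => ?_
  rcases i with i | i <;> rcases j with j | j <;> rfl

theorem spectrum_toBG {γ δ : Type} [Fintype γ] [Fintype δ] [DecidableEq γ] [DecidableEq δ]
    (F : γ → δ → Prop) :
    (toBG F).spectrum = (adjB F).charpoly.roots := by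
  rw [spectrum_eq, ← Matrix.charpoly_reindex
    (Equiv.sumCongr (Fintype.equivFin γ) (Fintype.equivFin δ)) (adjB F), ← adjB_reindex]
  rfl

/-! ### The two sequences -/

/-- The size parameter `Q = 24 ^ k`. -/
noncomputable def L (k : ℕ) : ℝ := Real.log ((24 ^ k : ℕ) : ℝ)

theorem L_eq (k : ℕ) : L k = k * Real.log 24 := by
  unfold L
  push_cast
  rw [Real.log_pow]

theorem tendsto_L : Tendsto L atTop atTop := by
  have h : L = fun k : ℕ => (k : ℝ) * Real.log 24 := funext L_eq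
  rw [h]
  exact tendsto_natCast_atTop_atTop.atTop_mul_const (Real.log_pos (by norm_num))

theorem L_nonneg (k : ℕ) : 0 ≤ L k := by
  rw [L_eq]
  have : 0 ≤ Real.log 24 := Real.log_nonneg (by norm_num)
  positivity

/-- elementary limit -/
theorem ratio_limit (u v : ℕ → ℝ) (c C D : ℝ)
    (hu : ∀ᶠ k in atTop, |u k + c * L k| ≤ C) (hv : ∀ᶠ k in atTop, |v k + L k| ≤ D) :
    Tendsto (fun k => u k / v k) atTop (𝓝 c) := by
  have hb : ∀ (w : ℕ → ℝ) (C : ℝ), (∀ᶠ k in atTop, |w k| ≤ C) →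
      Tendsto (fun k => w k / L k) atTop (𝓝 0) := by
    intro w C hw
    have h1 : Tendsto (fun k => C / L k) atTop (𝓝 0) := tendsto_L.const_div_atTop C
    apply squeeze_zero_norm' _ h1
    filter_upwards [hw] with k hk
    rw [Real.norm_eq_abs, abs_div, abs_of_nonneg (L_nonneg k)]
    exact div_le_div_of_nonneg_right hk (L_nonneg k)
  have hL : ∀ᶠ k in atTop, 0 < L k := tendsto_L.eventually_gt_atTop 0
  have h1 : Tendsto (fun k => u k / L k) atTop (𝓝 (-c)) := by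
    have h2 := (hb _ C hu).sub_const c
    rw [zero_sub] at h2
    apply h2.congr'
    filter_upwards [hL] with k hk
    field_simp
    ring
  have h2 : Tendsto (fun k => v k / L k) atTop (𝓝 (-1)) := by
    have h2 := (hb _ D hv).sub_const 1
    rw [zero_sub] at h2
    apply h2.congr'
    filter_upwards [hL] with k hk
    field_simp
    ring
  have h3 := h1.div h2 (by norm_num)
  have h4 : (-c / -1 : ℝ) = c := by norm_num
  rw [h4] at h3
  apply h3.congr'
  filter_upwards [hL] with k hk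
  rw [Pi.div_apply]
  exact div_div_div_cancel_right₀ hk.ne' _ _

theorem log_bound (a b : ℕ) (hm : ℝ) (o : ℤ) (c C : ℝ) (hc : 0 < c) (hC : 0 < C) (k : ℕ)
    (N1 N2 : ℝ) (h1 : ((24 ^ k : ℕ) : ℝ) ^ 2 ≤ N1) (h1' : N1 ≤ 2 * ((24 ^ k : ℕ) : ℝ) ^ 2)
    (h2 : ((24 ^ k : ℕ) : ℝ) ^ 2 ≤ N2) (h2' : N2 ≤ 2 * ((24 ^ k : ℕ) : ℝ) ^ 2)
    (hlo : c * ((24 ^ k : ℕ) : ℝ) ^ o ≤ hm) (hhi : hm ≤ C * ((24 ^ k : ℕ) : ℝ) ^ o) :
    |Real.log (hm / (N1 ^ a * N2 ^ b)) - (o - 2 * (a + b)) * L k| ≤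
      |Real.log c| + |Real.log C| + (a + b) * Real.log 2 := by
  have hQ : (0 : ℝ) < ((24 ^ k : ℕ) : ℝ) := by positivity
  have hQ2 : (0 : ℝ) < ((24 ^ k : ℕ) : ℝ) ^ 2 := by positivity
  have hN1 : 0 < N1 := lt_of_lt_of_le hQ2 h1
  have hN2 : 0 < N2 := lt_of_lt_of_le hQ2 h2
  have hm0 : 0 < hm := lt_of_lt_of_le (by positivity) hlo
  have e0 : Real.log (hm / (N1 ^ a * N2 ^ b)) =
      Real.log hm - (a * Real.log N1 + b * Real.log N2) := by
    rw [Real.log_div hm0.ne' (by positivity), Real.log_mul (by positivity) (by positivity),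
      Real.log_pow, Real.log_pow]
  have e1 : Real.log (((24 ^ k : ℕ) : ℝ) ^ 2) = 2 * L k := by
    rw [Real.log_pow]; rfl
  have e2 : Real.log (2 * ((24 ^ k : ℕ) : ℝ) ^ 2) = Real.log 2 + 2 * L k := by
    rw [Real.log_mul (by norm_num) hQ2.ne', e1]
  have f1 : 2 * L k ≤ Real.log N1 := by rw [← e1]; exact Real.log_le_log hQ2 h1
  have f1' : Real.log N1 ≤ Real.log 2 + 2 * L k := by rw [← e2]; exact Real.log_le_log hN1 h1'
  have f2 : 2 * L k ≤ Real.log N2 := by rw [← e1]; exact Real.log_le_log hQ2 h2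
  have f2' : Real.log N2 ≤ Real.log 2 + 2 * L k := by rw [← e2]; exact Real.log_le_log hN2 h2'
  have e3 : Real.log (c * ((24 ^ k : ℕ) : ℝ) ^ o) = Real.log c + o * L k := by
    rw [Real.log_mul hc.ne' (by positivity), Real.log_zpow]; rfl
  have e4 : Real.log (C * ((24 ^ k : ℕ) : ℝ) ^ o) = Real.log C + o * L k := by
    rw [Real.log_mul hC.ne' (by positivity), Real.log_zpow]; rfl
  have f3 : Real.log c + o * L k ≤ Real.log hm := by
    rw [← e3]; exact Real.log_le_log (by positivity) hlo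
  have f4 : Real.log hm ≤ Real.log C + o * L k := by
    rw [← e4]; exact Real.log_le_log hm0 hhi
  have ha : (0 : ℝ) ≤ a := Nat.cast_nonneg a
  have hb : (0 : ℝ) ≤ b := Nat.cast_nonneg b
  have g1 := mul_le_mul_of_nonneg_left f1 ha
  have g1' := mul_le_mul_of_nonneg_left f1' ha
  have g2 := mul_le_mul_of_nonneg_left f2 hb
  have g2' := mul_le_mul_of_nonneg_left f2' hb
  have hc1 := neg_abs_le (Real.log c)
  have hc2 := abs_nonneg (Real.log c)
  have hC1 := le_abs_self (Real.log C)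
  have hC2 := abs_nonneg (Real.log C)
  have hl2 : 0 ≤ (a + b : ℝ) * Real.log 2 := by
    have : 0 ≤ Real.log 2 := Real.log_nonneg (by norm_num)
    positivity
  rw [e0, abs_le]
  constructor <;> nlinarith

/-- Lower bound of the same kind. -/
theorem log_lower (a b : ℕ) (hm : ℝ) (o : ℤ) (k : ℕ)
    (N1 N2 : ℝ) (h1 : ((24 ^ k : ℕ) : ℝ) ^ 2 ≤ N1) (h1' : N1 ≤ 2 * ((24 ^ k : ℕ) : ℝ) ^ 2)
    (h2 : ((24 ^ k : ℕ) : ℝ) ^ 2 ≤ N2) (h2' : N2 ≤ 2 * ((24 ^ k : ℕ) : ℝ) ^ 2)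
    (hlo : ((24 ^ k : ℕ) : ℝ) ^ o ≤ hm) :
    (o - 2 * (a + b)) * L k - (a + b) * Real.log 2 ≤ Real.log (hm / (N1 ^ a * N2 ^ b)) := by
  have hQ : (0 : ℝ) < ((24 ^ k : ℕ) : ℝ) := by positivity
  have hQ2 : (0 : ℝ) < ((24 ^ k : ℕ) : ℝ) ^ 2 := by positivity
  have hN1 : 0 < N1 := lt_of_lt_of_le hQ2 h1
  have hN2 : 0 < N2 := lt_of_lt_of_le hQ2 h2
  have hm0 : 0 < hm := lt_of_lt_of_le (by positivity) hlo
  have e0 : Real.log (hm / (N1 ^ a * N2 ^ b)) =
      Real.log hm - (a * Real.log N1 + b * Real.log N2) := by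
    rw [Real.log_div hm0.ne' (by positivity), Real.log_mul (by positivity) (by positivity),
      Real.log_pow, Real.log_pow]
  have e1 : Real.log (((24 ^ k : ℕ) : ℝ) ^ 2) = 2 * L k := by
    rw [Real.log_pow]; rfl
  have e2 : Real.log (2 * ((24 ^ k : ℕ) : ℝ) ^ 2) = Real.log 2 + 2 * L k := by
    rw [Real.log_mul (by norm_num) hQ2.ne', e1]
  have f1' : Real.log N1 ≤ Real.log 2 + 2 * L k := by rw [← e2]; exact Real.log_le_log hN1 h1'
  have f2' : Real.log N2 ≤ Real.log 2 + 2 * L k := by rw [← e2]; exact Real.log_le_log hN2 h2'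
  have e3 : Real.log (((24 ^ k : ℕ) : ℝ) ^ o) = o * L k := by
    rw [Real.log_zpow]; rfl
  have f3 : o * L k ≤ Real.log hm := by
    rw [← e3]; exact Real.log_le_log (by positivity) hlo
  have ha : (0 : ℝ) ≤ a := Nat.cast_nonneg a
  have hb : (0 : ℝ) ≤ b := Nat.cast_nonneg b
  have g1' := mul_le_mul_of_nonneg_left f1' ha
  have g2' := mul_le_mul_of_nonneg_left f2' hb
  rw [e0]
  nlinarith

theorem size_a (k : ℕ) : ((24 ^ k : ℕ) : ℝ) ^ 2 ≤ (((24 ^ k) ^ 2 + 512 ^ k : ℕ) : ℝ) ∧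
    (((24 ^ k) ^ 2 + 512 ^ k : ℕ) : ℝ) ≤ 2 * ((24 ^ k : ℕ) : ℝ) ^ 2 := by
  have h1 : 512 ^ k ≤ (24 ^ k) ^ 2 := by
    rw [← pow_mul, mul_comm, pow_mul]
    exact Nat.pow_le_pow_left (by norm_num) k
  constructor
  · exact_mod_cast Nat.le_add_right ((24 ^ k) ^ 2) (512 ^ k)
  · have h2 : (24 ^ k) ^ 2 + 512 ^ k ≤ 2 * (24 ^ k) ^ 2 := by rw [two_mul]; gcongr
    exact_mod_cast h2

theorem size_b (k : ℕ) : ((24 ^ k : ℕ) : ℝ) ^ 2 ≤ (((24 ^ k) ^ 2 + 32 ^ k : ℕ) : ℝ) ∧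
    (((24 ^ k) ^ 2 + 32 ^ k : ℕ) : ℝ) ≤ 2 * ((24 ^ k : ℕ) : ℝ) ^ 2 := by
  have h1 : 32 ^ k ≤ (24 ^ k) ^ 2 := by
    rw [← pow_mul, mul_comm, pow_mul]
    exact Nat.pow_le_pow_left (by norm_num) k
  constructor
  · exact_mod_cast Nat.le_add_right ((24 ^ k) ^ 2) (32 ^ k)
  · have h2 : (24 ^ k) ^ 2 + 32 ^ k ≤ 2 * (24 ^ k) ^ 2 := by rw [two_mul]; gcongr
    exact_mod_cast h2

/-- The first sequence. -/
noncomputable def GG (g : ∀ k : ℕ, (Fin ((24 ^ k) ^ 2) × Fin ((24 ^ k) ^ 2) → Fin (24 ^ k)))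
    (k : ℕ) : BG := toBG (Sum.LiftRel (rel (24 ^ k) (g k)) (rookk k))

/-- The second sequence. -/
noncomputable def GG' (g : ∀ k : ℕ, (Fin ((24 ^ k) ^ 2) × Fin ((24 ^ k) ^ 2) → Fin (24 ^ k)))
    (k : ℕ) : BG := toBG (Sum.LiftRel (rel (24 ^ k) (g k)) (starsk k))

section
variable (g : ∀ k : ℕ, (Fin ((24 ^ k) ^ 2) × Fin ((24 ^ k) ^ 2) → Fin (24 ^ k))) (k : ℕ)

theorem GG_a : (GG g k).a = (24 ^ k) ^ 2 + 512 ^ k := by
  show Fintype.card (Fin ((24 ^ k) ^ 2) ⊕ TA k) = _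
  rw [Fintype.card_sum, Fintype.card_fin, card_TA]

theorem GG_b : (GG g k).b = (24 ^ k) ^ 2 + 32 ^ k := by
  show Fintype.card (Fin ((24 ^ k) ^ 2) ⊕ TD k) = _
  rw [Fintype.card_sum, Fintype.card_fin, card_TD]

theorem GG'_a : (GG' g k).a = (24 ^ k) ^ 2 + 512 ^ k := by
  show Fintype.card (Fin ((24 ^ k) ^ 2) ⊕ TA' k) = _
  rw [Fintype.card_sum, Fintype.card_fin, card_TA']

theorem GG'_b : (GG' g k).b = (24 ^ k) ^ 2 + 32 ^ k := by
  show Fintype.card (Fin ((24 ^ k) ^ 2) ⊕ TD k) = _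
  rw [Fintype.card_sum, Fintype.card_fin, card_TD]

theorem toBG_InB0 {γ δ : Type} [Fintype γ] [Fintype δ] (F : γ → δ → Prop)
    (hF : ∃ x y, F x y) : (toBG F).InB0 := by
  obtain ⟨x, y, hxy⟩ := hF
  refine ⟨Fintype.equivFin γ x, Fintype.equivFin δ y, ?_⟩
  show F ((Fintype.equivFin γ).symm _) ((Fintype.equivFin δ).symm _)
  rw [Equiv.symm_apply_apply, Equiv.symm_apply_apply]
  exact hxy

theorem GG_InB0 : (GG g k).InB0 := by
  apply toBG_InB0
  refine ⟨Sum.inr (fun _ => ((0, 0), true)), Sum.inr (fun _ => Sum.inl 0), ?_⟩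
  apply Sum.LiftRel.inr
  intro i
  exact ⟨rfl, rfl⟩

theorem GG'_InB0 : (GG' g k).InB0 := by
  apply toBG_InB0
  refine ⟨Sum.inr (fun _ => (Sum.inl 0, 0)), Sum.inr (fun _ => Sum.inl 0), ?_⟩
  apply Sum.LiftRel.inr
  intro i
  show center (Sum.inl 0, 0) = Sum.inl 0
  unfold center
  rfl

theorem spectrum_GG : (GG g k).spectrum = (GG' g k).spectrum := by
  classical
  unfold GG GG'
  rw [spectrum_toBG, spectrum_toBG, charpoly_main]

/-- Two-sided estimate for `log t_B(H, G_k)`. -/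
theorem GG_est (hg : ∀ n, ∃ k1, ∀ k, k1 ≤ k → GoodAll n (24 ^ k) (g k)) (H : BG) :
    ∃ D : ℝ, ∀ᶠ k in atTop, |Real.log (tB H (GG g k)) + (r H : ℝ) * L k| ≤ D := by
  obtain ⟨C, hC, hU⟩ := union_le H.E
  obtain ⟨k1, hk1⟩ := hg (max H.a H.b)
  refine ⟨|Real.log (1 / 2 ^ (H.a + H.b + 1))| + |Real.log C| + (H.a + H.b) * Real.log 2, ?_⟩
  · filter_upwards [eventually_ge_atTop k1] with k hk
    have h1 := hk1 k hk
    have h1' : GoodAll (max (Fintype.card (Fin H.a)) (Fintype.card (Fin H.b))) (24 ^ k) (g k) := by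
      simpa using h1
    have h2 := hU k (g k) h1'
    have h3 := le_union H.E (rookk k) k (g k) h1'
    simp only [Fintype.card_fin] at h3
    have e : hom H (GG g k) = homCount H.E (Sum.LiftRel (rel (24 ^ k) (g k)) (rookk k)) :=
      hom_toBG H _
    have h4 := log_bound H.a H.b (hom H (GG g k)) (opt H.E) (1 / 2 ^ (H.a + H.b + 1)) C
      (by positivity) hC k (GG g k).a (GG g k).b (by rw [GG_a]; exact (size_a k).1)
      (by rw [GG_a]; exact (size_a k).2) (by rw [GG_b]; exact (size_b k).1)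
      (by rw [GG_b]; exact (size_b k).2) (by rw [e]; rw [one_div_mul_eq_div]; exact h3)
      (by rw [e]; exact h2)
    have h5 : Real.log (tB H (GG g k)) + (r H : ℝ) * L k =
      Real.log ((hom H (GG g k) : ℝ) / (((GG g k).a : ℝ) ^ H.a * ((GG g k).b : ℝ) ^ H.b)) -
        (opt H.E - 2 * (H.a + H.b)) * L k := by
      rw [r_eq]
      unfold tB
      push_cast
      ring
    rw [h5]
    exact h4

theorem r_star (t : ℕ) : r ⟨t, 1, fun _ _ => True⟩ = t := by
  rw [r_eq, opt_star]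
  push_cast
  ring

theorem r_K2 : r K2 = 1 := by
  have := r_star 1
  exact_mod_cast this

theorem h_eq (H G : BG) (hne : Real.log (tB K2 G) ≠ 0) :
    h H G = Real.log (tB H G) / Real.log (tB K2 G) := by
  unfold h
  rw [if_neg]
  intro h1
  apply hne
  rw [h1, Real.log_one]

theorem GG_QLL (hg : ∀ n, ∃ k1, ∀ k, k1 ≤ k → GoodAll n (24 ^ k) (g k)) : HasQLL (GG g) := by
  intro H _
  obtain ⟨D1, h1⟩ := GG_est g hg H
  obtain ⟨D2, h2⟩ := GG_est g hg K2
  rw [r_K2] at h2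
  have h2' : ∀ᶠ k in atTop, |Real.log (tB K2 (GG g k)) + L k| ≤ D2 := by
    filter_upwards [h2] with k hk
    simpa using hk
  have h3 := ratio_limit _ _ _ D1 D2 h1 h2'
  apply h3.congr'
  have h4 : ∀ᶠ k in atTop, D2 < L k := tendsto_L.eventually_gt_atTop D2
  filter_upwards [h2', h4] with k hk hk'
  rw [h_eq]
  have := (abs_le.mp hk).2
  intro h0
  rw [h0] at this
  linarith

/-- Estimate for `log t_B(K₂, G'_k)`. -/
theorem GG'_est (hg : ∀ n, ∃ k1, ∀ k, k1 ≤ k → GoodAll n (24 ^ k) (g k)) :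
    ∃ D : ℝ, ∀ᶠ k in atTop, |Real.log (tB K2 (GG' g k)) + L k| ≤ D := by
  obtain ⟨k1, hk1⟩ := hg 1
  refine ⟨|Real.log (1 / 2 ^ (1 + 1 + 1))| + |Real.log 3| +
    (((1 : ℕ) : ℝ) + ((1 : ℕ) : ℝ)) * Real.log 2, ?_⟩
  · filter_upwards [eventually_ge_atTop k1] with k hk
    have h1 := hk1 k hk
    have h1' : GoodAll (max (Fintype.card (Fin 1)) (Fintype.card (Fin 1))) (24 ^ k) (g k) := by
      simpa using h1
    have h2 := edges_stars_le k (g k) h1
    have h3 := le_union (fun (_ : Fin 1) (_ : Fin 1) => True) (starsk k) k (g k) h1'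
    rw [opt_star 1, show (((1 : ℕ) : ℤ) + 2) = 3 from rfl] at h3
    simp only [Fintype.card_fin] at h3
    have e : hom K2 (GG' g k) = homCount (fun (_ : Fin 1) (_ : Fin 1) => True)
      (Sum.LiftRel (rel (24 ^ k) (g k)) (starsk k)) := hom_toBG K2 _
    have h4 := log_bound 1 1 (hom K2 (GG' g k)) 3 (1 / 2 ^ (1 + 1 + 1)) 3
      (by positivity) (by norm_num) k (GG' g k).a (GG' g k).b (by rw [GG'_a]; exact (size_a k).1)
      (by rw [GG'_a]; exact (size_a k).2) (by rw [GG'_b]; exact (size_b k).1)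
      (by rw [GG'_b]; exact (size_b k).2) (by rw [e]; rw [one_div_mul_eq_div]; exact h3)
      (by rw [e]; exact h2)
    have h5 : Real.log (tB K2 (GG' g k)) + L k =
      Real.log ((hom K2 (GG' g k) : ℝ) / (((GG' g k).a : ℝ) ^ 1 * ((GG' g k).b : ℝ) ^ 1)) -
        (((3 : ℤ) : ℝ) - 2 * (((1 : ℕ) : ℝ) + ((1 : ℕ) : ℝ))) * L k := by
      show Real.log ((hom K2 (GG' g k) : ℝ) / (((GG' g k).a : ℝ) ^ 1 * ((GG' g k).b : ℝ) ^ 1)) +
        L k = _
      push_cast
      ring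
    rw [h5]
    exact h4

/-- The star with 34 leaves in `V₁`. -/
def S34 : BG := ⟨34, 1, fun _ _ => True⟩

theorem GG'_star (k : ℕ) : -33 * L k - 35 * Real.log 2 ≤ Real.log (tB S34 (GG' g k)) := by
  have e : hom S34 (GG' g k) = homCount (fun (_ : Fin 34) (_ : Fin 1) => True)
      (Sum.LiftRel (rel (24 ^ k) (g k)) (starsk k)) := hom_toBG S34 _
  have h1 : (24 ^ k) ^ 37 ≤ hom S34 (GG' g k) := by
    rw [e]
    have h2 := starsk_hom 34 k
    have h3 := homCount_le_sum' (fun (_ : Fin 34) (_ : Fin 1) => True) (rel (24 ^ k) (g k))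
      (starsk k)
    refine le_trans ?_ (h2.trans h3)
    rw [← pow_mul, mul_comm, pow_mul]
    exact Nat.pow_le_pow_left (by norm_num) k
  have h2 : ((24 ^ k : ℕ) : ℝ) ^ (37 : ℤ) ≤ (hom S34 (GG' g k) : ℝ) := by
    rw [show (37 : ℤ) = ((37 : ℕ) : ℤ) from rfl, zpow_natCast]
    exact_mod_cast h1
  have h3 := log_lower 34 1 (hom S34 (GG' g k)) 37 k (GG' g k).a (GG' g k).b
      (by rw [GG'_a]; exact (size_a k).1)
      (by rw [GG'_a]; exact (size_a k).2) (by rw [GG'_b]; exact (size_b k).1)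
      (by rw [GG'_b]; exact (size_b k).2) h2
  have h4 : Real.log (tB S34 (GG' g k)) = Real.log ((hom S34 (GG' g k) : ℝ) /
    (((GG' g k).a : ℝ) ^ 34 * ((GG' g k).b : ℝ) ^ 1)) := rfl
  rw [h4]
  refine le_trans (le_of_eq ?_) h3
  push_cast
  ring

theorem GG'_not_QLL (hg : ∀ n, ∃ k1, ∀ k, k1 ≤ k → GoodAll n (24 ^ k) (g k)) :
    ¬ HasQLL (GG' g) := by
  intro hQ
  have h1 := hQ S34 ⟨(0 : Fin 34), (0 : Fin 1), trivial⟩
  have h0 : r S34 = 34 := by
    have := r_star 34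
    exact_mod_cast this
  rw [h0] at h1
  have h2 : ∀ᶠ k in atTop, (33.5 : ℝ) < h S34 (GG' g k) :=
    h1.eventually_const_lt (by norm_num)
  obtain ⟨D, h3⟩ := GG'_est g hg
  have h4 : ∀ᶠ k in atTop, 70 * Real.log 2 + 67 * |D| + 1 < L k :=
    tendsto_L.eventually_gt_atTop _
  obtain ⟨k, hk2, hk3, hk4⟩ := (h2.and (h3.and h4)).exists
  have h5 := (abs_le.mp hk3).2
  have h6 := le_abs_self D
  have h7 := abs_nonneg D
  have hl2 : 0 ≤ Real.log 2 := Real.log_nonneg (by norm_num)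
  have hv : Real.log (tB K2 (GG' g k)) < 0 := by linarith
  rw [h_eq _ _ hv.ne, lt_div_iff_of_neg hv] at hk2
  have h8 := GG'_star g k
  linarith

end

/-- **Q1 is false.** There are two sequences `(G_n)`, `(G'_n)` in `𝓑₀` such that, for every `n`, the
graphs `G_n` and `G'_n` have the same spectrum (and the same class sizes), such that `(G_n)` has
the quasirandom log-limit and `(G'_n)` does not. -/
theorem result : ∃ G G' : ℕ → BG, (∀ n, (G n).InB0) ∧ (∀ n, (G' n).InB0) ∧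
    (∀ n, (G n).spectrum = (G' n).spectrum) ∧
    (∀ n, (G n).a = (G' n).a ∧ (G n).b = (G' n).b) ∧
    HasQLL G ∧ ¬ HasQLL G' := by
  obtain ⟨g, hg⟩ := exists_seq
  exact ⟨GG g, GG' g, GG_InB0 g, GG'_InB0 g, spectrum_GG g,
    fun n => ⟨by rw [GG_a, GG'_a], by rw [GG_b, GG'_b]⟩, GG_QLL g hg, GG'_not_QLL g hg⟩

end Pool.Agent.Results.MP_8fd344_co.NotSpectral
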